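import Pool.Agent.P8H39.TI.Stm7

/-!
Project TI (helper39), package NLB, by helper86.
-/

set_option autoImplicit false

namespace Pool.Agent.P8H86.TI

open Pool.Agent.P8H39.TI

theorem t_NLB : S_NLB := by
  intro s m N d p hs hN hp h1 h2
  have hs0 : (0 : ℝ) < s := by exact_mod_cast hs
  have hN0 : (0 : ℝ) < N := by exact_mod_cast hN
  have hp0 : 0 ≤ p := by linarith
  have e1 : (d : ℝ) ≤ s * Real.exp (-((m : ℝ) / (2 * s))) := by
    have h3 := Real.add_one_le_exp (-((m : ℝ) / (2 * s)))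
    have h4 : (2 : ℝ) * d + m ≤ 2 * s := by exact_mod_cast h2
    have h5 : (d : ℝ) ≤ s * (-((m : ℝ) / (2 * s)) + 1) := by
      have h6 : (s : ℝ) * (-((m : ℝ) / (2 * s)) + 1) = s - m / 2 := by
        field_simp
        ring
      rw [h6]
      linarith
    exact h5.trans (mul_le_mul_of_nonneg_left h3 hs0.le)
  have e2 : (d : ℝ) ^ p ≤ (s : ℝ) ^ p * Real.exp (-((m : ℝ) / (2 * s)) * p) := by
    calc (d : ℝ) ^ p ≤ ((s : ℝ) * Real.exp (-((m : ℝ) / (2 * s)))) ^ p :=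
          Real.rpow_le_rpow (Nat.cast_nonneg d) e1 hp0
      _ = (s : ℝ) ^ p * Real.exp (-((m : ℝ) / (2 * s)) * p) := by
          rw [Real.mul_rpow hs0.le (Real.exp_pos _).le, ← Real.exp_mul]
  have e3 : (N : ℝ) ≤ Real.exp ((m : ℝ) / (2 * s) * p) := by
    rw [← Real.log_le_iff_le_exp hN0, show (m : ℝ) / (2 * s) * p = (p * m) / (2 * s) by ring,
      le_div_iff₀ (by positivity)]
    linarith
  calc (N : ℝ) * (d : ℝ) ^ p ≤ Real.exp ((m : ℝ) / (2 * s) * p) *
        ((s : ℝ) ^ p * Real.exp (-((m : ℝ) / (2 * s)) * p)) :=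
        mul_le_mul e3 e2 (by positivity) (Real.exp_pos _).le
    _ = (s : ℝ) ^ p * Real.exp ((m : ℝ) / (2 * s) * p + -((m : ℝ) / (2 * s)) * p) := by
        rw [Real.exp_add]
        ring
    _ = (s : ℝ) ^ p := by
        rw [show (m : ℝ) / (2 * s) * p + -((m : ℝ) / (2 * s)) * p = 0 by ring, Real.exp_zero,
          mul_one]

end Pool.Agent.P8H86.TI
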